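import Mathlib
import Pool.Agent.H1.NearT.Defs
import Pool.Agent.H1.NearT.Proof

namespace Pool.Agent.Results.MP_053bca_co.AllNonabelianOdd
open Pool.Agent.H1.NearT

theorem result (G : Type*) [Group G] [Finite G] (hodd : Odd (Nat.card G))
    (hna : ∃ a b : G, a * b ≠ b * a) : IsAdmissible G (Nat.card G - 1) :=
  main G hodd hna

end Pool.Agent.Results.MP_053bca_co.AllNonabelianOdd
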